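import Pool.Agent.H62.DMeet1

set_option autoImplicit false
open FirstOrder Filter

namespace Pool.Agent.Results.MP_ef6db9_lc.NotFA
open H62.DMeet

lemma exists_V : ∃ V : Ultrafilter (ℕ × ℕ), ∀ a : ℕ → El,
    ∀ᶠ p : ℕ × ℕ in V, 0 < p.2 ∧ p.2 ≤ p.1 ∧ a p.1 ≠ .c p.2 := by
  classical
  obtain ⟨V, hV⟩ := Ultrafilter.exists_ultrafilter_of_finite_inter_nonempty
    (Set.range fun a : ℕ → El => {p : ℕ × ℕ | 0 < p.2 ∧ p.2 ≤ p.1 ∧ a p.1 ≠ .c p.2}) fun T hT => by
      choose a ha using fun s : T => hT s.2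
      obtain ⟨j, hj⟩ : ∃ j : Fin (T.card + 1), ∀ s, a s (T.card + 1) ≠ .c (j + 1) := by
        by_contra! hc
        choose f hf using hc
        have := Fintype.card_le_of_injective f fun j j' e => by
          have := hf j; rw [e, hf j'] at this; exact Fin.ext (by simpa using this.symm)
        simp at this
      exact ⟨(T.card + 1, j + 1), fun s hs => (Set.ext_iff.mp (ha ⟨s, hs⟩) _).mp ⟨by simp, j.2, hj ⟨s, hs⟩⟩⟩
  exact ⟨V, fun a => hV ⟨a, rfl⟩⟩

def E (_ : ℕ) : Type := El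
instance (n : ℕ) : Nonempty (E n) := ⟨.z⟩
instance (n : ℕ) : L.Structure (E n) := str cp (M n)

theorem result : ¬∃ T : L.Theory, T.Finite ∧ ∀ (A : Type) [Nonempty A] (cp : A → A → A) (M : A → A → A → Prop),
    (∀ a b c c', M a b c → M a b c' → c = c') → (Models cp M T ↔ Rep cp M) := by
  rintro ⟨T, hT, H⟩
  obtain ⟨V, hV⟩ := exists_V
  let U : Ultrafilter ℕ := V.map Prod.fst
  let B := (U : Filter ℕ).Product E
  let cB : B → B → B := fun a b => Language.Structure.funMap (L := L) Fn.cp ![a, b]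
  let MB : B → B → B → Prop := fun a b c => Language.Structure.RelMap (L := L) Rl.mt ![a, b, c]
  have e : str cB MB = (inferInstance : L.Structure B) := by
    refine Language.Structure.ext ?_ ?_
    · ext _ f x
      cases f; exact congrArg _ (by ext i; fin_cases i <;> rfl)
    · ext _ f x
      cases f; exact (congrArg _ (by ext i; fin_cases i <;> rfl)).to_iff
  let o : B → ∀ n, E n := Quotient.out
  have ho : ∀ a : B, (o a : B) = a := Quotient.out_eq
  have h2 : ∀ a b : B, ∀ᶠ p : ℕ × ℕ in V, o (cB a b) p.1 = cp (o a p.1) (o b p.1) := by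
    intro a b
    have := Language.Ultraproduct.funMap_cast (L := L) (u := U) Fn.cp ![o a, o b]
    rw [show (fun i => ((![o a, o b] i : ∀ n, E n) : B)) = ![a, b] by
      ext i; fin_cases i <;> exact ho _] at this
    exact Quotient.exact ((ho _).trans this)
  have h3 : ∀ a b c : ∀ n, E n, MB a b c ↔ ∀ᶠ p : ℕ × ℕ in V, M p.1 (a p.1) (b p.1) (c p.1) := by
    intro a b c
    have := Language.relMap_quotient_mk' (L := L) (s := (U : Filter ℕ).productSetoid E) Rl.mt ![a, b, c]
    rw [show (fun i => (⟦(![a, b, c] i : ∀ n, E n)⟧ : B)) = ![(a : B), (b : B), (c : B)] by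
      ext i; fin_cases i <;> rfl] at this
    exact this
  have h4 : ∀ a b c : B, MB a b c ↔ ∀ᶠ p : ℕ × ℕ in V, M p.1 (o a p.1) (o b p.1) (o c p.1) := fun a b c => by
    rw [← h3, ho, ho, ho]
  have ne : Nonempty Pt := ⟨.Q⟩
  let G : B → ℕ × ℕ → Pt → Pt → Prop := fun a p => F p.1 p.2 (o a p.1)
  let h : B → Set ((ℕ × ℕ → Pt) × (ℕ × ℕ → Pt)) := fun a => {x | ∀ᶠ p in V, G a p (x.1 p) (x.2 p)}
  have dm : ∀ a x, x ∈ dom (h a) ↔ ∀ᶠ p in V, ∃ y, G a p (x p) y := fun a x =>
    (Filter.skolem (P := fun p y => G a p (x p) y)).symm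
  have dm2 : ∀ a b x, x ∈ dom (h a ∩ h b) ↔ ∀ᶠ p in V, ∃ y, G a p (x p) y ∧ G b p (x p) y := fun a b x =>
    (exists_congr fun _ => eventually_and.symm).trans
      (Filter.skolem (P := fun p y => G a p (x p) y ∧ G b p (x p) y)).symm
  have rep : Rep cB MB := by
    refine ⟨_, h, fun a b hab => ?_, fun a b => Set.ext fun x => ?_, fun a b => ⟨fun ⟨c, hc⟩ => ?_, fun hc => ?_⟩,
      fun a b c hc => Set.ext fun x => ?_⟩
    · by_contra hn
      have : ¬∀ᶠ p : ℕ × ℕ in V, o a p.1 = o b p.1 := fun h => hn (by rw [← ho a, ← ho b]; exact Quotient.sound h)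
      have k1 : ∀ᶠ p in V, ∃ x y, ¬(G a p x y ↔ G b p x y) := by
        filter_upwards [Ultrafilter.eventually_not.mpr this] with p h1
        simpa only [not_forall] using mt F_inj h1
      obtain ⟨x, k1⟩ := Filter.skolem.mp k1
      obtain ⟨y, k1⟩ := Filter.skolem.mp k1
      have h := Set.ext_iff.mp hab (x, y)
      refine Ultrafilter.eventually_not.mp k1 ?_
      by_cases h' : ∀ᶠ p in V, G a p (x p) (y p)
      · filter_upwards [h', h.mp h'] with p using iff_of_true
      · filter_upwards [Ultrafilter.eventually_not.mpr h', Ultrafilter.eventually_not.mpr (mt h.mpr h')]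
          with p using iff_of_false
    · refine (eventually_congr ?_).trans ((Filter.skolem (P := fun p y => G a p (x.1 p) y ∧
        G b p y (x.2 p))).trans (exists_congr fun _ => eventually_and))
      filter_upwards [h2 a b, hV (o b)] with p h1 h4
      simp only [G, h1]; exact F_cp _ _ h4.2.2 _ _
    · ext x
      rw [Set.mem_inter_iff, dm, dm, dm2, ← eventually_and]
      refine eventually_congr ?_
      filter_upwards [(h4 _ _ _).mp hc, hV (o b)] with p h1 h4
      exact ⟨fun ⟨⟨_, a⟩, _, b⟩ => (F_mt h4.1 h4.2.1 h1 _).1 _ _ a b, fun ⟨y, a, b⟩ => ⟨⟨y, a⟩, y, b⟩⟩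
    · by_contra hn
      have : ¬∀ᶠ n in U, ∃ r : E n, M n (o a n) (o b n) r := fun k => by
        obtain ⟨c, k⟩ := Filter.skolem.mp k
        exact hn ⟨(c : B), by rw [← ho a, ← ho b]; exact (h3 _ _ c).mpr k⟩
      have k := Set.ext_iff.mp hc fun _ => .Q
      rw [Set.mem_inter_iff, dm, dm, dm2, ← eventually_and] at k
      have k1 : ∀ᶠ p : ℕ × ℕ in V, ¬∃ r, M p.1 (o a p.1) (o b p.1) r := Ultrafilter.eventually_not.mpr this
      obtain ⟨p, a1, a2⟩ := ((k.mp (k1.mono fun p h => let ⟨_, _, a, b, _⟩ := F_nm h; ⟨⟨_, a⟩, _, b⟩)).and k1).exists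
      obtain ⟨_, _, -, -, a3⟩ := F_nm (j := p.2) a2
      exact a3 a1
    · simp only [dmeet, res, Set.mem_union, Set.mem_inter_iff, Set.mem_ofPred_eq, Set.mem_compl_iff, dm]
      simp only [h, Set.mem_ofPred_eq, ← Ultrafilter.eventually_not, ← eventually_and, ← Ultrafilter.eventually_or]
      refine eventually_congr ?_
      filter_upwards [(h4 _ _ _).mp hc, hV (o b)] with p h1 h4
      exact ((F_mt h4.1 h4.2.1 h1 _).2 _).trans or_assoc.symm
  have hB := (H B cB MB fun a b c c' h h' => let ⟨_, _, a1, _, _, a2⟩ := rep; a1 ((a2 _ _ _ h).trans (a2 _ _ _ h').symm)).mpr rep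
  rw [Models, e, Language.Theory.model_iff] at hB
  obtain ⟨n, hn, h1⟩ := (((eventually_all_finite hT).mpr fun φ hφ =>
    (Language.Ultraproduct.sentence_realize φ).mp (hB φ hφ)).and
      (show ∀ᶠ n in U, 0 < n from (hV fun _ => .z).mono fun p h => h.1.trans_le h.2.1)).exists
  refine not_rep n ((H (E n) cp (M n) fun a b c c' h h' => F_inj (N := n) (j := 1) fun p q => ?_).mp ⟨hn⟩)
  rw [(F_mt one_pos h1 h p).2, (F_mt one_pos h1 h' p).2]

end Pool.Agent.Results.MP_ef6db9_lc.NotFA
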